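import Pool.Agent.Helper26.KD.St
import Pool.Agent.Helper84.LE.M_Crit

/-! # Project CB (MP_65faa7, bulk case), block K: module KSp (the setting for percolation) -/

set_option autoImplicit false

open scoped BigOperators ENNReal Topology
open Pool.LE Pool.NL Filter

namespace Pool.KD

namespace KSpM

theorem sq_nn {d : ℕ} (x : Zd d) : 0 ≤ LE.sq x := Finset.sum_nonneg fun _ _ => sq_nonneg _

theorem nn_nn {d : ℕ} (x : Zd d) : 0 ≤ nn x := Real.sqrt_nonneg _

theorem one_add_sq_le {d : ℕ} (x : Zd d) : (1 + nn x) ^ 2 ≤ Qw x := by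
  have h : nn x ^ 2 = LE.sq x := Real.sq_sqrt (sq_nn x)
  unfold Qw
  nlinarith [sq_nonneg (nn x - 1)]

theorem cube_le {d : ℕ} (x : Zd d) : (1 + nn x) ^ 3 ≤ Qw x ^ 2 := by
  have h0 := nn_nn x
  have h1 := one_add_sq_le x
  have h2 : (1 : ℝ) ≤ 1 + nn x := by linarith
  calc (1 + nn x) ^ 3 ≤ (1 + nn x) ^ 4 := pow_le_pow_right₀ h2 (by norm_num)
    _ = ((1 + nn x) ^ 2) ^ 2 := by ring
    _ ≤ Qw x ^ 2 := pow_le_pow_left₀ (by positivity) h1 2

/-- third moment of the two-point function below the critical point -/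
theorem gs {d : ℕ} {p : ℝ} (hPH : StPH) (hEM : StExpMom) (hPE : StPolyExp) (hTB : StTauBasic)
    (hd : 1 ≤ d) (h0 : 0 ≤ p) (hp : p < pH d) :
    Summable (fun y : Zd d => (1 + nn y) ^ 3 * tau d p y) := by
  obtain ⟨-, q2, q3, -⟩ := hPH d hd
  obtain ⟨S, hS, hphi⟩ := q3 p h0 hp
  have h12 : p ≤ 1 / 2 := hp.le.trans q2
  obtain ⟨r, hr, hsum⟩ := hEM d p S h0 h12 hS hphi
  have hr0 : 0 ≤ r := by linarith
  have hsr : 1 < Real.sqrt r := by
    rw [show (1 : ℝ) = Real.sqrt 1 by simp]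
    exact Real.sqrt_lt_sqrt (by norm_num) hr
  obtain ⟨K, hK⟩ := hPE d (Real.sqrt r) hsr
  obtain ⟨-, -, -, t4, t5⟩ := hTB d p h0 (by linarith)
  have h1 : Summable (fun x : Zd d => r ^ n1 x * tau d p x) := by
    have h2 := ENNReal.summable_toReal hsum.ne
    refine h2.congr fun x => ?_
    rw [ENNReal.toReal_mul, ENNReal.toReal_ofReal (pow_nonneg (by linarith) _)]
    rfl
  refine Summable.of_nonneg_of_le (fun x => ?_) (fun x => ?_) (h1.mul_left (K ^ 2))
  · have := nn_nn x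
    exact mul_nonneg (by positivity) (t5 x).1
  · have hQ : 0 ≤ Qw x := by
      have := sq_nn x
      unfold Qw
      linarith
    have e1 : Qw x ^ 2 ≤ K ^ 2 * r ^ n1 x := by
      calc Qw x ^ 2 ≤ (K * Real.sqrt r ^ n1 x) ^ 2 := pow_le_pow_left₀ hQ (hK x) 2
        _ = K ^ 2 * (Real.sqrt r ^ 2) ^ n1 x := by ring
        _ = K ^ 2 * r ^ n1 x := by rw [Real.sq_sqrt hr0]
    have e2 := (cube_le x).trans e1
    have e3 := mul_le_mul_of_nonneg_right e2 (t5 x).1
    linarith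

theorem cv_FZ {d : ℕ} (p : ℝ) (hBox : StBox) (x : Zd d) :
    cv (gS d p) (fun y => p * Jf d y) x = FZ d p x := by
  classical
  obtain ⟨-, -, -, n4, n5, -, -, -, -, -, -, -, -⟩ := hBox d
  have hz : ∀ u : Zd d, x - u ∈ nb (0 : Zd d) ↔ u ∈ nb x := by
    intro u
    rw [n5 0 (x - u) u, add_zero, add_sub_cancel, n4 u x]
  unfold cv FZ
  rw [tsum_eq_sum (s := nb x), Finset.mul_sum]
  · refine Finset.sum_congr rfl fun u hu => ?_
    unfold Jf
    simp only [if_pos ((hz u).2 hu)]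
    ring
  · intro u hu
    unfold Jf
    have hn : x - u ∉ nb (0 : Zd d) := fun h => hu ((hz u).1 h)
    simp only [if_neg hn]
    ring

theorem sq_hS {d : ℕ} {p : ℝ} (h : SumQ (hS d p)) (hg : gS d p = dl (hS d p)) :
    |∑' y : Zd d, LE.sq y * gS d p y| ≤ nQ (hS d p) := by
  have e : ∀ y : Zd d, LE.sq y * gS d p y = LE.sq y * hS d p y := by
    intro y
    rw [hg]
    unfold dl
    by_cases hy : y = 0
    · subst hy
      have : LE.sq (0 : Zd d) = 0 := by
        unfold LE.sq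
        simp
      rw [this]
      ring
    · rw [if_neg hy, add_zero]
  rw [tsum_congr e]
  have hle : ∀ y : Zd d, ‖LE.sq y * hS d p y‖ ≤ Qw y * |hS d p y| := by
    intro y
    rw [Real.norm_eq_abs, abs_mul, abs_of_nonneg (sq_nn y)]
    refine mul_le_mul_of_nonneg_right ?_ (abs_nonneg _)
    have := sq_nn y
    unfold Qw
    linarith
  have hs : Summable (fun y : Zd d => ‖LE.sq y * hS d p y‖) :=
    Summable.of_nonneg_of_le (fun y => norm_nonneg _) hle h
  rw [← Real.norm_eq_abs]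
  refine (norm_tsum_le_tsum_norm hs).trans ?_
  exact hs.tsum_le_tsum hle h

theorem ft_hS {d : ℕ} {p : ℝ} (h : SumQ (hS d p)) : |FT (hS d p) 0| ≤ nQ (hS d p) := by
  rw [ft_zero_Crit]
  have hle : ∀ y : Zd d, ‖hS d p y‖ ≤ Qw y * |hS d p y| := by
    intro y
    rw [Real.norm_eq_abs]
    have h1 : 1 ≤ Qw y := by
      have := sq_nn y
      unfold Qw
      linarith
    nlinarith [abs_nonneg (hS d p y)]
  have hs : Summable (fun y : Zd d => ‖hS d p y‖) :=
    Summable.of_nonneg_of_le (fun y => norm_nonneg _) hle h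
  rw [← Real.norm_eq_abs]
  refine (norm_tsum_le_tsum_norm hs).trans ?_
  exact hs.tsum_le_tsum hle h

theorem M3_mono {d : ℕ} {F : Zd d → ℝ} {K K' : ℝ} (h : M3 F K) (hK : K ≤ K') : M3 F K' :=
  ⟨h.summ, h.le.trans hK⟩

end KSpM

open KSpM

theorem hKSp (hG3p : StG3p) (hM3p : StM3p) (hB7 : StB7) (hCvA : StCvA) (hCvB : StCvB)
    (hImpF : StImpF) (hB1 : StB1) (hPH : StPH) (hEM : StExpMom) (hPE : StPolyExp)
    (hTB : StTauBasic) (hBox : StBox) : StKSp := by
  obtain ⟨dG, hG⟩ := hG3p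
  obtain ⟨C, hC, dB, hB⟩ := hB7
  refine ⟨max (max dG dB) (max 21 ⌈(200 * C) ^ 2⌉₊), fun d hd => ?_⟩
  have hdG : dG ≤ d := le_trans (le_trans (le_max_left _ _) (le_max_left _ _)) hd
  have hdB : dB ≤ d := le_trans (le_trans (le_max_right _ _) (le_max_left _ _)) hd
  have hd21 : 21 ≤ d := le_trans (le_trans (le_max_left _ _) (le_max_right _ _)) hd
  have hdC : ⌈(200 * C) ^ 2⌉₊ ≤ d := le_trans (le_trans (le_max_right _ _) (le_max_right _ _)) hd
  have hd1 : 1 ≤ d := by omega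
  have hdR : (21 : ℝ) ≤ d := by exact_mod_cast hd21
  have hCd : C / Real.sqrt d ≤ 1 / 200 := by
    have h1 : (200 * C) ^ 2 ≤ (d : ℝ) := (Nat.le_ceil _).trans (by exact_mod_cast hdC)
    have h2 : 200 * C ≤ Real.sqrt d := Real.le_sqrt_of_sq_le h1
    have h3 : 0 < Real.sqrt d := Real.sqrt_pos.2 (by linarith)
    rw [div_le_iff₀ h3]
    linarith
  obtain ⟨hp0, hp2, -, -⟩ := hPH d hd1
  refine ⟨32 * (d : ℝ) ^ 3, pH d / 4, ?_, by linarith, fun p hp1 hp => ?_⟩
  · have : (1 : ℝ) ≤ (d : ℝ) ^ 3 := one_le_pow₀ (by linarith)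
    linarith
  have hpp : 0 ≤ p := by linarith
  have hp1' : p ≤ 1 := by linarith
  obtain ⟨-, he⟩ := (hB d hdB).1 p hpp hp
  have hne : eta d p ≠ ⊤ := ne_top_of_le_ne_top ENNReal.ofReal_ne_top he
  obtain ⟨-, a2, a3, a4, a5, -, -⟩ := hCvA d p hne
  have hnQ : nQ (hS d p) ≤ 1 / 200 := by
    refine a3.trans ?_
    have h1 : (eta d p).toReal ≤ (ENNReal.ofReal (C / Real.sqrt d)).toReal :=
      ENNReal.toReal_mono ENNReal.ofReal_ne_top he
    rw [ENNReal.toReal_ofReal (by positivity)] at h1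
    exact h1.trans hCd
  obtain ⟨m1, m2, m3, m4, m5⟩ := hM3p d p hd1 hpp hp1' (hG d hdG p hpp hp.le) hne
  obtain ⟨-, b2, b3, b4, -, -, -⟩ := hB1 d p (by omega) hpp hp
  obtain ⟨-, -, c3, -, c5⟩ := hTB d p hpp hp1'
  have hft : FT (gS d p) 0 = 1 + FT (hS d p) 0 := by rw [a5, ft_dl_Crit a2]
  have heq := hCvB d p hpp hp1' hne b2
  have hf := ft_hS a2
  have hf2 := abs_le.1 (hf.trans hnQ)
  have hd2 : (1 : ℝ) ≤ (d : ℝ) ^ 2 := one_le_pow₀ (by linarith)
  refine ⟨hd21, ?_, by linarith, M3_mono m2 ?_, m3, ?_, ?_, M3_mono m1 ?_, fun x => (c5 x).1,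
    gs hPH hEM hPE hTB hd1 hpp hp, fun x => ?_⟩
  · have : (1 : ℝ) ≤ (d : ℝ) ^ 3 := one_le_pow₀ (by linarith)
    linarith
  · have : (0 : ℝ) ≤ (d : ℝ) ^ 3 := by positivity
    nlinarith
  · -- the total mass of the step kernel
    rw [m4, hft]
    have heq' := heq
    rw [a5] at heq'
    have h1 := (hImpF d p (tau d p) (hS d p) (by omega) b2 c3 a2 a4 heq' 0).1
    rw [b4, dh_zero_Crit (by omega), mul_one] at h1
    have h2 : 0 < 1 + FT (hS d p) 0 := by linarith [hf2.1]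
    by_contra hcon
    push Not at hcon
    have h3 : chi d p * (1 - 2 * d * p * (1 + FT (hS d p) 0)) ≤ 0 :=
      mul_nonpos_of_nonneg_of_nonpos (by linarith) (by linarith)
    linarith
  · -- the second moment
    rw [m5, hft]
    have h1 := abs_le.1 ((sq_hS a2 a5).trans hnQ)
    have h2 : (1 : ℝ) / 2 ≤ 1 + FT (hS d p) 0 + ∑' y : Zd d, LE.sq y * gS d p y := by
      linarith [h1.1, hf2.1]
    calc pH d / 4 ≤ p * (1 / 2) := by linarith
      _ ≤ p * (1 + FT (hS d p) 0 + ∑' y : Zd d, LE.sq y * gS d p y) :=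
        mul_le_mul_of_nonneg_left h2 hpp
  · nlinarith [hd2]
  · rw [heq x]
    congr 1
    unfold cv
    refine tsum_congr fun y => ?_
    have := cv_FZ p hBox y
    unfold cv at this
    rw [this]

end Pool.KD

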